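import Pool.Agent.Helper54_LOC.Stmt

/-!
# LOC: module EXPC (superadditivity of the number of eigenvalues above `e`)
-/

set_option autoImplicit false

open MeasureTheory ProbabilityTheory

open scoped ENNReal NNReal BigOperators

noncomputable section

namespace Pool.Agent.LOC.H73

open Matrix Pool.Agent.Anderson Pool.Agent.Loc Pool.Agent.BED Pool.Agent.LOC

variable {d : ℕ}

theorem HM_mulVec (W : Site d → ℝ) (Λ : Finset (Site d)) (g : Site d → ℝ) (y : Λ) :
    (HM W Λ *ᵥ fun w : Λ => g w) y = ∑ w ∈ Λ, hop (y : Site d) w * g w + W y * g y := by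
  unfold HM
  simp only [Matrix.mulVec, dotProduct, Matrix.of_apply, add_mul, Finset.sum_add_distrib]
  congr 1
  · rw [← Finset.sum_coe_sort Λ]
  · simp

/-- The quadratic form of a function supported in `Λ'`. -/
theorem form_eq (W : Site d → ℝ) {Λ Λ' : Finset (Site d)} (h : Λ' ⊆ Λ) (g : Site d → ℝ)
    (hg : ∀ y, y ∉ Λ' → g y = 0) :
    ∑ y : Λ, g y * (HM W Λ *ᵥ fun w : Λ => g w) y =
      ∑ y : Λ', g y * (HM W Λ' *ᵥ fun w : Λ' => g w) y := by
  have h1 : ∀ y : Site d, ∑ w ∈ Λ, hop y w * g w = ∑ w ∈ Λ', hop y w * g w := by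
    intro y
    symm
    refine Finset.sum_subset h fun w _ hw => ?_
    rw [hg w hw, mul_zero]
  simp only [HM_mulVec]
  rw [Finset.sum_coe_sort Λ (fun y => g y * (∑ w ∈ Λ, hop y w * g w + W y * g y)),
    Finset.sum_coe_sort Λ' (fun y => g y * (∑ w ∈ Λ', hop y w * g w + W y * g y))]
  simp only [h1]
  symm
  refine Finset.sum_subset h fun y _ hy => ?_
  rw [hg y hy, zero_mul]

/-- Superadditivity: small boxes which are not adjacent. -/
theorem superadd (hmm : MinmaxStmt) (W : Site d → ℝ) (Λ : Finset (Site d)) (e : ℝ) {ι : Type}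
    (S : Finset ι) (Λ' : ι → Finset (Site d)) (hsub : ∀ j ∈ S, Λ' j ⊆ Λ)
    (hsep : ∀ j ∈ S, ∀ j' ∈ S, j ≠ j' → ∀ y ∈ Λ' j, ∀ w ∈ Λ' j', 2 ≤ sd y w)
    (hpos : ∀ j ∈ S, 0 < nAbove W (Λ' j) e) : S.card ≤ nAbove W Λ e := by
  classical
  -- test functions
  have hex : ∀ j : S, ∃ g : Site d → ℝ, (∀ y, y ∉ Λ' j → g y = 0) ∧ (∃ y ∈ Λ' j, g y ≠ 0) ∧
      e * ∑ y : Λ' j, g y ^ 2 ≤ ∑ y : Λ' j, g y * (HM W (Λ' j) *ᵥ fun w : Λ' j => g w) y := by
    intro j
    obtain ⟨i, hi⟩ := Finset.card_pos.1 (hpos j j.2)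
    rw [Finset.mem_filter] at hi
    set hH := HM_isHermitian W (Λ' j)
    set v : Λ' j → ℝ := ⇑(hH.eigenvectorBasis i) with hv
    have hev : HM W (Λ' j) *ᵥ v = hH.eigenvalues i • v := hH.mulVec_eigenvectorBasis i
    have hv0 : v ≠ 0 := by
      intro h0
      have h1 : hH.eigenvectorBasis i ≠ 0 := by
        intro h
        have := hH.eigenvectorBasis.orthonormal.1 i
        rw [h, norm_zero] at this
        exact zero_ne_one this
      apply h1
      ext y
      exact congrFun h0 y
    refine ⟨fun y => if h : y ∈ Λ' j then v ⟨y, h⟩ else 0, fun y hy => dif_neg hy, ?_, ?_⟩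
    · obtain ⟨y, hy⟩ := Function.ne_iff.1 hv0
      exact ⟨y, y.2, by simpa [y.2] using hy⟩
    · have e1 : (fun w : Λ' j => (fun y => if h : y ∈ Λ' j then v ⟨y, h⟩ else 0) (w : Site d)) =
          v := by
        funext w
        simp [w.2]
      have e2 : ∀ y : Λ' j, (fun y => if h : y ∈ Λ' j then v ⟨y, h⟩ else 0) (y : Site d) = v y :=
        fun y => congrFun e1 y
      rw [e1, hev]
      simp only [e2, Pi.smul_apply, smul_eq_mul]
      rw [Finset.mul_sum]
      refine Finset.sum_le_sum fun y _ => ?_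
      have h2 := mul_le_mul_of_nonneg_right hi.2 (sq_nonneg (v y))
      calc e * v y ^ 2 ≤ hH.eigenvalues i * v y ^ 2 := h2
        _ = v y * (hH.eigenvalues i * v y) := by ring
  choose g hg0 hgne hge using hex
  let f : Fin S.card → Λ → ℝ := fun k y => g (S.equivFin.symm k) y
  have hzero : ∀ (k k' : Fin S.card), k ≠ k' → ∀ y w : Site d,
      g (S.equivFin.symm k) y ≠ 0 → g (S.equivFin.symm k') w ≠ 0 → 2 ≤ sd y w := by
    intro k k' hk y w hy hw
    have h1 : (S.equivFin.symm k : ι) ≠ S.equivFin.symm k' := fun h =>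
      hk (S.equivFin.symm.injective (Subtype.ext h))
    refine hsep _ (S.equivFin.symm k).2 _ (S.equivFin.symm k').2 h1 y ?_ w ?_
    · by_contra h
      exact hy (hg0 _ y h)
    · by_contra h
      exact hw (hg0 _ w h)
  refine hmm Λ (HM W Λ) (HM_isHermitian W Λ) e S.card f ?_ ?_ ?_ ?_
  · intro k h0
    obtain ⟨y, hy, hne⟩ := hgne (S.equivFin.symm k)
    exact hne (congrFun h0 ⟨y, hsub _ (S.equivFin.symm k).2 hy⟩)
  · intro k k' hk y
    by_contra hne
    have := hzero k k' hk y y (left_ne_zero_of_mul hne) (right_ne_zero_of_mul hne)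
    rw [sd_self] at this
    omega
  · intro k k' hk
    refine Finset.sum_eq_zero fun y _ => ?_
    change g (S.equivFin.symm k) y * (HM W Λ *ᵥ fun w : Λ => g (S.equivFin.symm k') w) y = 0
    by_cases h1 : g (S.equivFin.symm k) (y : Site d) = 0
    · rw [h1, zero_mul]
    · rw [HM_mulVec]
      have h2 : g (S.equivFin.symm k') (y : Site d) = 0 := by
        by_contra h2
        have h3 := hzero k k' hk _ _ h1 h2
        rw [sd_self] at h3
        omega
      have h3 : ∑ w ∈ Λ, hop (y : Site d) w * g (S.equivFin.symm k') w = 0 := by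
        refine Finset.sum_eq_zero fun w _ => ?_
        by_contra h4
        have h5 := sd_of_hop (left_ne_zero_of_mul h4)
        have h6 := hzero k k' hk _ _ h1 (right_ne_zero_of_mul h4)
        omega
      rw [h2, h3]
      ring
  · intro k
    have h1 := form_eq W (hsub _ (S.equivFin.symm k).2) (g (S.equivFin.symm k)) (hg0 _)
    have h2 : ∑ y : Λ, g (S.equivFin.symm k) y ^ 2 =
        ∑ y : Λ' (S.equivFin.symm k), g (S.equivFin.symm k) y ^ 2 := by
      rw [Finset.sum_coe_sort Λ (fun y => g (S.equivFin.symm k) y ^ 2),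
        Finset.sum_coe_sort (Λ' (S.equivFin.symm k)) (fun y => g (S.equivFin.symm k) y ^ 2)]
      symm
      refine Finset.sum_subset (hsub _ (S.equivFin.symm k).2) fun y _ hy => ?_
      rw [hg0 _ y hy]; ring
    change e * ∑ y : Λ, g (S.equivFin.symm k) y ^ 2 ≤
      ∑ y : Λ, g (S.equivFin.symm k) y * (HM W Λ *ᵥ fun w : Λ => g (S.equivFin.symm k) w) y
    rw [h1, h2]
    exact hge _

universe u

/-- Module EXPC. -/
theorem expc (hmm : MinmaxStmt) : ExpcStmt.{u} := by
  classical
  intro d l e Ω _ P _ V hA L hL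
  choose A hAm hAP hAn using hA
  set K : ℕ := (L + 1) / (l + 1) with hK
  have hK1 : (l + 1) * K ≤ L + 1 := Nat.mul_div_le (L + 1) (l + 1)
  have hK2 : L + 1 < (l + 1) * K + (l + 1) := by
    have := Nat.lt_div_mul_add (a := L + 1) (b := l + 1) (by omega)
    rw [← hK] at this
    linarith
  -- centres
  set cen : (Fin d → Fin K) → Site d := fun n i => - (L : ℤ) + l + (2 * l + 2) * (n i : ℕ)
    with hcen
  have hcenb : ∀ n i, - (L : ℤ) + l ≤ cen n i ∧ cen n i ≤ L - l := by
    intro n i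
    have h1 : ((n i : ℕ) : ℤ) + 1 ≤ K := by exact_mod_cast (n i).2
    have h2 : (0 : ℤ) ≤ ((n i : ℕ) : ℤ) := by positivity
    have h3 : ((l : ℤ) + 1) * K ≤ L + 1 := by exact_mod_cast hK1
    have h4 : ((l : ℤ) + 1) * (((n i : ℕ) : ℤ) + 1) ≤ ((l : ℤ) + 1) * K :=
      mul_le_mul_of_nonneg_left h1 (by positivity)
    constructor
    · rw [hcen]
      have : (0 : ℤ) ≤ (2 * l + 2) * ((n i : ℕ) : ℤ) := by positivity
      simp only
      linarith
    · rw [hcen]
      simp only
      linarith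
  have hsub : ∀ n, box (cen n) l ⊆ box 0 L := by
    intro n y hy
    rw [mem_box] at *
    rw [sd_le_iff] at *
    intro i
    have h1 := abs_le.1 (hy i)
    have h2 := hcenb n i
    rw [Pi.zero_apply, zero_sub, abs_neg, abs_le]
    constructor <;> linarith
  have hsep : ∀ n n', n ≠ n' → ∀ y ∈ box (cen n) l, ∀ w ∈ box (cen n') l, 2 ≤ sd y w := by
    intro n n' hnn y hy w hw
    by_contra hcon
    apply hnn
    funext i
    have h0 : sd y w ≤ 1 := by omega
    rw [mem_box] at hy hw
    have h1 := sd_le_iff.1 hy i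
    have h2 := sd_le_iff.1 hw i
    have h3 := sd_le_iff.1 h0 i
    push_cast at h3
    by_contra hni
    have hni' : ((n i : ℕ) : ℤ) - ((n' i : ℕ) : ℤ) ≠ 0 := by
      intro h
      apply hni
      apply Fin.ext
      have : ((n i : ℕ) : ℤ) = ((n' i : ℕ) : ℤ) := by linarith
      exact_mod_cast this
    have h4 : 1 ≤ |((n i : ℕ) : ℤ) - ((n' i : ℕ) : ℤ)| := Int.one_le_abs hni'
    have h5 : cen n i - cen n' i = (2 * l + 2) * (((n i : ℕ) : ℤ) - ((n' i : ℕ) : ℤ)) := by
      rw [hcen]; ring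
    have h6 : (2 * (l : ℤ) + 2) ≤ |cen n i - cen n' i| := by
      rw [h5, abs_mul, abs_of_nonneg (by positivity : (0 : ℤ) ≤ 2 * l + 2)]
      nlinarith
    have h7 : |cen n i - cen n' i| ≤ |cen n i - y i| + |y i - w i| + |cen n' i - w i| := by
      calc |cen n i - cen n' i| = |(cen n i - y i) + (y i - w i) + (-(cen n' i - w i))| := by
            ring_nf
        _ ≤ |(cen n i - y i) + (y i - w i)| + |(-(cen n' i - w i))| := abs_add_le _ _
        _ ≤ |cen n i - y i| + |y i - w i| + |(-(cen n' i - w i))| := by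
            have := abs_add_le (cen n i - y i) (y i - w i)
            linarith
        _ = _ := by rw [abs_neg]
    linarith
  -- superadditivity
  have hpt : ∀ ω, ∑ n : Fin d → Fin K, (A (cen n)).indicator (fun _ => (1 : ℝ≥0∞)) ω ≤
      (nAbove (fun y => V y ω) (box 0 L) e : ℝ≥0∞) := by
    intro ω
    have h1 := superadd hmm (fun y => V y ω) (box 0 L) e
      (Finset.univ.filter fun n : Fin d → Fin K => ω ∈ A (cen n)) (fun n => box (cen n) l)
      (fun n _ => hsub n) (fun n _ n' _ h => hsep n n' h)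
      (fun n hn => hAn (cen n) ω (Finset.mem_filter.1 hn).2)
    have h2 : ∑ n : Fin d → Fin K, (A (cen n)).indicator (fun _ => (1 : ℝ≥0∞)) ω =
        ((Finset.univ.filter fun n : Fin d → Fin K => ω ∈ A (cen n)).card : ℝ≥0∞) := by
      simp only [Set.indicator_apply]
      rw [Finset.sum_ite, Finset.sum_const_zero, add_zero, Finset.sum_const, nsmul_eq_mul,
        mul_one]
    rw [h2]
    exact_mod_cast h1
  calc ENNReal.ofReal (1 / 2 * ((2 * (L : ℝ) + 1) / (4 * l + 4)) ^ d)
      ≤ ENNReal.ofReal ((K : ℝ) ^ d * (1 / 2)) := by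
        refine ENNReal.ofReal_le_ofReal ?_
        have h1 : (2 * (L : ℝ) + 1) / (4 * l + 4) ≤ K := by
          rw [div_le_iff₀ (by positivity)]
          have h2 : 2 * L + 1 ≤ K * (4 * l + 4) := by
            have e1 : K * (4 * l + 4) = 4 * ((l + 1) * K) := by ring
            rw [e1]
            generalize (l + 1) * K = t at hK1 hK2
            omega
          exact_mod_cast h2
        have h3 : ((2 * (L : ℝ) + 1) / (4 * l + 4)) ^ d ≤ (K : ℝ) ^ d :=
          pow_le_pow_left₀ (by positivity) h1 d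
        linarith
    _ = ∑ _n : Fin d → Fin K, ENNReal.ofReal (1 / 2) := by
        rw [Finset.sum_const, Finset.card_univ, Fintype.card_fun, Fintype.card_fin,
          Fintype.card_fin, nsmul_eq_mul, ENNReal.ofReal_mul (by positivity)]
        congr 1
        rw [ENNReal.ofReal_pow (by positivity), ENNReal.ofReal_natCast]
        push_cast
        rfl
    _ ≤ ∑ n : Fin d → Fin K, P (A (cen n)) := Finset.sum_le_sum fun n _ => hAP _
    _ = ∑ n : Fin d → Fin K, ∫⁻ ω, (A (cen n)).indicator (fun _ => (1 : ℝ≥0∞)) ω ∂P := by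
        refine Finset.sum_congr rfl fun n _ => ?_
        rw [lintegral_indicator (hAm _), lintegral_const, Measure.restrict_apply_univ, one_mul]
    _ = ∫⁻ ω, ∑ n : Fin d → Fin K, (A (cen n)).indicator (fun _ => (1 : ℝ≥0∞)) ω ∂P := by
        rw [lintegral_finsetSum]
        intro n _
        exact measurable_const.indicator (hAm _)
    _ ≤ ∫⁻ ω, (nAbove (fun y => V y ω) (box 0 L) e : ℝ≥0∞) ∂P := lintegral_mono hpt

/-- EXPC without hypotheses. -/
theorem expcAll : ExpcStmt.{u} := expc H15.minmax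

end Pool.Agent.LOC.H73
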